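import Mathlib

set_option autoImplicit false

/-!
# Words: number of factors, concatenations, Hamming distance
-/

open Finset

namespace Pool.Agent.Y780.Mo

variable {α : Type*} [DecidableEq α]

/-- The number of different factors of length `n` of the word `u`. -/
def cpl (u : List α) (n : ℕ) : ℕ :=
  ((Finset.range (u.length + 1 - n)).image fun i => (u.drop i).take n).card

lemma cpl_drop_le (u : List α) (j n : ℕ) : cpl (u.drop j) n ≤ cpl u n := by
  unfold cpl
  apply Finset.card_le_card
  intro w hw
  rw [Finset.mem_image] at hw ⊢
  obtain ⟨i, hi, rfl⟩ := hw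
  rw [Finset.mem_range, List.length_drop] at hi
  by_cases hj : j ≤ u.length
  · refine ⟨j + i, Finset.mem_range.2 (by omega), ?_⟩
    rw [List.drop_drop]
  · refine ⟨0, Finset.mem_range.2 (by omega), ?_⟩
    have hn : n = 0 := by omega
    subst hn
    simp

lemma cpl_take_le (u : List α) (l n : ℕ) : cpl (u.take l) n ≤ cpl u n := by
  unfold cpl
  apply Finset.card_le_card
  intro w hw
  rw [Finset.mem_image] at hw ⊢
  obtain ⟨i, hi, rfl⟩ := hw
  rw [Finset.mem_range, List.length_take] at hi
  refine ⟨i, Finset.mem_range.2 (by omega), ?_⟩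
  have hl : i + n ≤ l ∨ n = 0 := by omega
  rcases hl with hl | hl
  · rw [List.drop_take, List.take_take, min_eq_left (by omega)]
  · subst hl; simp

lemma cpl_short (u : List α) (hu : u.length ≤ 1) (n : ℕ) : cpl u n ≤ 1 := by
  unfold cpl
  rcases Nat.eq_zero_or_pos n with h | h
  · subst h
    have : (Finset.range (u.length + 1 - 0)).image (fun i => (u.drop i).take 0) ⊆ {[]} := by
      intro w hw
      rw [Finset.mem_image] at hw
      obtain ⟨i, -, rfl⟩ := hw
      simp
    exact (Finset.card_le_card this).trans (by simp)
  · refine Finset.card_image_le.trans ?_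
    rw [Finset.card_range]
    omega

omit [DecidableEq α] in
/-- dropping an initial segment of a concatenation -/
lemma flatten_drop (W : List (List α)) : ∀ i : ℕ, ∃ W' : List (List α),
    W'.flatten = W.flatten.drop i ∧ W'.length ≤ W.length ∧ ∀ u' ∈ W', ∃ u ∈ W, ∃ j, u' = u.drop j := by
  induction W with
  | nil => intro i; exact ⟨[], by simp, by simp, by simp⟩
  | cons u W ih =>
    intro i
    by_cases hi : i ≤ u.length
    · refine ⟨u.drop i :: W, ?_, by simp, ?_⟩
      · rw [List.flatten_cons, List.flatten_cons, List.drop_append_of_le_length hi]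
      · intro u' hu'
        rw [List.mem_cons] at hu'
        rcases hu' with rfl | hu'
        · exact ⟨u, by simp, i, rfl⟩
        · exact ⟨u', by simp [hu'], 0, by simp⟩
    · obtain ⟨W', h1, h2, h3⟩ := ih (i - u.length)
      refine ⟨W', ?_, by simp; omega, ?_⟩
      · have e : List.drop i u = [] := List.drop_eq_nil_of_le (by omega)
        rw [h1, List.flatten_cons, List.drop_append, e, List.nil_append]
      · intro u' hu'
        obtain ⟨v, hv, j, hj⟩ := h3 u' hu'
        exact ⟨v, by simp [hv], j, hj⟩

/-- The number of places in which two words differ. -/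
def ham (u v : List α) : ℕ := ((u.zip v).filter fun a => a.1 != a.2).length

/-- A word at Hamming distance `D` from `v` is a concatenation of `2 D + 1` factors of `v` and
letters. -/
lemma ham_split (v : List α) : ∀ u : List α, u.length = v.length →
    ∃ (l : ℕ) (W : List (List α)), (v.take l) ++ W.flatten = u ∧ W.length ≤ 2 * ham u v ∧
      ∀ w ∈ W, w.length ≤ 1 ∨ ∃ j l, w = (v.drop j).take l := by
  induction v with
  | nil =>
    intro u hu
    have : u = [] := List.length_eq_zero_iff.1 (by simpa using hu)
    subst this
    exact ⟨0, [], by simp, by simp, by simp⟩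
  | cons b v ih =>
    intro u hu
    match u, hu with
    | [], hu => simp at hu
    | a :: u, hu =>
      obtain ⟨l, W, h1, h2, h3⟩ := ih u (by simpa using hu)
      by_cases hab : a = b
      · subst hab
        refine ⟨l + 1, W, ?_, ?_, ?_⟩
        · rw [List.take_succ_cons, List.cons_append, h1]
        · refine h2.trans ?_
          unfold ham
          simp
        · intro w hw
          rcases h3 w hw with h | ⟨j, l, h⟩
          · exact Or.inl h
          · exact Or.inr ⟨j + 1, l, by rw [List.drop_succ_cons]; exact h⟩
      · refine ⟨0, [a] :: (v.take l) :: W, ?_, ?_, ?_⟩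
        · simp [h1]
        · have : ham (a :: u) (b :: v) = ham u v + 1 := by
            unfold ham
            have : (a != b) = true := by simpa using hab
            simp [this]
          rw [this]
          simp only [List.length_cons]
          omega
        · intro w hw
          rw [List.mem_cons, List.mem_cons] at hw
          rcases hw with rfl | rfl | hw
          · exact Or.inl (by simp)
          · exact Or.inr ⟨1, l, by simp⟩
          · rcases h3 w hw with h | ⟨j, l, h⟩
            · exact Or.inl h
            · exact Or.inr ⟨j + 1, l, by rw [List.drop_succ_cons]; exact h⟩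

/-- pieces of a word near a word of low complexity -/
lemma ham_pieces {A : ℝ} (hA : 1 ≤ A) {M : ℕ} (hM : 1 ≤ M) (u v : List α)
    (h : u.length = v.length) (hlow : ∀ n, M ≤ n → (cpl v n : ℝ) ≤ A * n) :
    ∃ W : List (List α), W.flatten = u ∧ W.length ≤ 2 * ham u v + 1 ∧
      ∀ w ∈ W, ∀ n, M ≤ n → (cpl w n : ℝ) ≤ A * n := by
  obtain ⟨l, W, h1, h2, h3⟩ := ham_split v u h
  refine ⟨v.take l :: W, by rw [List.flatten_cons, h1], by rw [List.length_cons]; omega, ?_⟩
  intro w hw n hn
  rw [List.mem_cons] at hw
  have hn1 : (1 : ℝ) ≤ n := by exact_mod_cast hM.trans hn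
  rcases hw with rfl | hw
  · have e1 : (cpl (v.take l) n : ℝ) ≤ cpl v n := by exact_mod_cast cpl_take_le v l n
    linarith [hlow n hn]
  · rcases h3 w hw with h5 | ⟨j, l', rfl⟩
    · have e1 : (cpl w n : ℝ) ≤ 1 := by exact_mod_cast cpl_short w h5 n
      nlinarith
    · have e1 : (cpl ((v.drop j).take l') n : ℝ) ≤ cpl v n := by
        exact_mod_cast (cpl_take_le (v.drop j) l' n).trans (cpl_drop_le v j n)
      linarith [hlow n hn]

end Pool.Agent.Y780.Mo
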