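import Mathlib
import Pool.Agent.Y780.Mo.Words
import Pool.Agent.TH932.S2.All
import Pool.Agent.TH932.S2.F.Fin

set_option autoImplicit false

/-!
# Trajectories whose word is a concatenation of words of linear complexity

General affine maps `p G(x) = q ^ δ(f x) x + d β(f x)` (structures `Dt`, `Mp` of
`Pool.Agent.TH932.S2.F`), uniformly in `d`: few pieces force the trajectory into a small cycle.
-/

open Finset

namespace Pool.Agent.Y780.Mo

open Pool.Agent.TH932.Words Pool.Agent.TH932.S2 Pool.Agent.TH932.S2.F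

variable {α : Type*}

/-- The word of the first `n` letters of the trajectory of `x`. -/
def itw (f : ℤ → α) (G : ℤ → ℤ) (x : ℤ) (n : ℕ) : List α := (List.range n).map fun i => f (G^[i] x)

lemma itw_length (f : ℤ → α) (G : ℤ → ℤ) (x : ℤ) (n : ℕ) : (itw f G x n).length = n := by
  unfold itw; simp

lemma itw_add (f : ℤ → α) (G : ℤ → ℤ) (x : ℤ) (a b : ℕ) :
    itw f G x (a + b) = itw f G x a ++ itw f G (G^[a] x) b := by
  unfold itw
  rw [List.range_add, List.map_append, List.map_map]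
  congr 1
  apply List.map_congr_left
  intro i _
  have e : G^[a + i] x = G^[i] (G^[a] x) := by
    rw [add_comm a i, Function.iterate_add_apply]
  change f (G^[a + i] x) = _
  rw [e]

lemma itw_factor (f : ℤ → α) (G : ℤ → ℤ) (x : ℤ) {L a n : ℕ} (h : a + n ≤ L) :
    ((itw f G x L).drop a).take n = itw f G (G^[a] x) n := by
  obtain ⟨b, hb⟩ : ∃ b, L = a + (n + b) := ⟨L - a - n, by omega⟩
  rw [hb, itw_add, List.drop_left' (itw_length _ _ _ _), itw_add,
    List.take_left' (itw_length _ _ _ _)]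

/-- the two notions of complexity -/
lemma wc_le_cpl [DecidableEq α] (f : ℤ → α) (G : ℤ → ℤ) (x : ℤ) {H L : ℕ} (hHL : H ≤ L) (m : ℕ) :
    wc (wd f G x) H m ≤ cpl (itw f G x L) m := by
  unfold wc cpl
  have hφi : Function.Injective (fun v : Fin m → α => List.ofFn v) := List.ofFn_injective
  rw [← Set.ncard_image_of_injective _ hφi, ← Set.ncard_coe_finset]
  apply Set.ncard_le_ncard _ (Finset.finite_toSet _)
  rintro _ ⟨_, ⟨i, hi, rfl⟩, rfl⟩
  rw [Set.mem_ofPred_eq] at hi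
  rw [Finset.mem_coe, Finset.mem_image]
  refine ⟨i, ?_, ?_⟩
  · rw [Finset.mem_range, itw_length]
    omega
  · rw [itw_factor _ _ _ (by omega)]
    unfold itw
    simp only
    rw [List.ofFn_eq_map, ← List.map_coe_finRange_eq_range, List.map_map]
    apply List.map_congr_left
    intro j _
    simp only [Function.comp]
    have e : G^[(j : ℕ)] (G^[i] x) = G^[i + j] x := by
      rw [add_comm i, Function.iterate_add_apply]
    rw [e]
    rfl

variable {T : Dt α} {d : ℤ} {f : ℤ → α} {G : ℤ → ℤ}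

/-- The height of an integer. -/
noncomputable def ht (d x : ℤ) : ℝ := Real.log (|(x : ℝ)| + |(d : ℝ)|)

lemma one_le_d (h : Mp T d f G) : (1 : ℝ) ≤ |(d : ℝ)| := by exact_mod_cast h.d_abs

lemma ht_nonneg (h : Mp T d f G) (x : ℤ) : 0 ≤ ht d x := by
  unfold ht
  apply Real.log_nonneg
  have := abs_nonneg (x : ℝ)
  linarith [one_le_d h]

lemma M2 (T : Dt α) : (2 : ℝ) ≤ T.M := by
  have h1 := T.hp
  have h2 := T.hpM
  exact_mod_cast h1.trans h2

lemma step_le (h : Mp T d f G) (x : ℤ) :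
    |(G x : ℝ)| + |(d : ℝ)| ≤ 2 * T.M * (|(x : ℝ)| + |(d : ℝ)|) := by
  have hM := M2 T
  have hp : (2 : ℝ) ≤ T.p := by exact_mod_cast T.hp
  have h1 : (T.p : ℝ) * G x = (T.q : ℝ) ^ T.δ (f x) * x + d * T.β (f x) := by
    exact_mod_cast h.hG x
  have h2 : (T.p : ℝ) * |(G x : ℝ)| ≤ T.M * |(x : ℝ)| + |(d : ℝ)| * T.M := by
    have e : (T.p : ℝ) * |(G x : ℝ)| = |(T.p : ℝ) * G x| := by
      rw [abs_mul, abs_of_nonneg (by linarith : (0 : ℝ) ≤ T.p)]
    rw [e, h1]
    refine (abs_add_le _ _).trans ?_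
    rw [abs_mul, abs_mul, abs_of_nonneg (by positivity : (0 : ℝ) ≤ (T.q : ℝ) ^ T.δ (f x))]
    have e1 : (T.q : ℝ) ^ T.δ (f x) ≤ T.M := by exact_mod_cast T.hqM (f x)
    have e2 : |((T.β (f x) : ℤ) : ℝ)| ≤ T.M := by exact_mod_cast T.hβM (f x)
    gcongr
  have hx0 := abs_nonneg (x : ℝ)
  have hd0 := abs_nonneg (d : ℝ)
  have hG0 := abs_nonneg (G x : ℝ)
  nlinarith

lemma iter_le (h : Mp T d f G) (x : ℤ) (n : ℕ) :
    |((G^[n] x : ℤ) : ℝ)| + |(d : ℝ)| ≤ (2 * T.M) ^ n * (|(x : ℝ)| + |(d : ℝ)|) := by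
  have hM := M2 T
  induction n with
  | zero => simp
  | succ n ih =>
    rw [Function.iterate_succ_apply', pow_succ]
    refine (step_le h _).trans ?_
    have := mul_le_mul_of_nonneg_left ih (show (0 : ℝ) ≤ 2 * T.M by linarith)
    calc _ ≤ _ := this
      _ = _ := by ring

lemma ht_iter_le (h : Mp T d f G) (x : ℤ) (n : ℕ) :
    ht d (G^[n] x) ≤ ht d x + Real.log (2 * T.M) * n := by
  have hM := M2 T
  have h1 := iter_le h x n
  have hd1 := one_le_d h
  have h2 : 0 < |(x : ℝ)| + |(d : ℝ)| := by have := abs_nonneg (x : ℝ); linarith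
  have h3 : 0 < |((G^[n] x : ℤ) : ℝ)| + |(d : ℝ)| := by
    have := abs_nonneg ((G^[n] x : ℤ) : ℝ); linarith
  unfold ht
  have h4 := Real.log_le_log h3 h1
  rw [Real.log_mul (by positivity) h2.ne', Real.log_pow] at h4
  linarith

/-- `z` lies on a cycle of length at most `B (M + log |d|)`, all elements of which have a logarithm at
most `B (M + log |d|)`. -/
def SmallCycle (B : ℝ) (M : ℕ) (d : ℤ) (G : ℤ → ℤ) (z : ℤ) : Prop :=
  (∃ k : ℕ, 1 ≤ k ∧ (k : ℝ) ≤ B * (M + Real.log |(d : ℝ)|) ∧ G^[k] z = z) ∧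
    ∀ j, |((G^[j] z : ℤ) : ℝ)| ≤ Real.exp (B * (M + Real.log |(d : ℝ)|))

lemma SmallCycle.mono {B B' : ℝ} (hB : B ≤ B') {M : ℕ} {z : ℤ} (hd : 1 ≤ |(d : ℝ)|)
    (h : SmallCycle B M d G z) : SmallCycle B' M d G z := by
  have h0 : 0 ≤ M + Real.log |(d : ℝ)| := by
    have := Real.log_nonneg hd
    positivity
  have h1 : B * (M + Real.log |(d : ℝ)|) ≤ B' * (M + Real.log |(d : ℝ)|) :=
    mul_le_mul_of_nonneg_right hB h0
  obtain ⟨⟨k, h2, h3, h4⟩, h5⟩ := h
  exact ⟨⟨k, h2, h3.trans h1, h4⟩, fun j => (h5 j).trans (Real.exp_le_exp.2 h1)⟩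

/-- **One piece.** -/
lemma one_piece [DecidableEq α] [Finite α] (T : Dt α) (A : ℝ) : ∃ K : ℕ, 1 ≤ K ∧
    ∀ (d : ℤ) (f : ℤ → α) (G : ℤ → ℤ), Mp T d f G → ∀ (x : ℤ) (M L : ℕ), 1 ≤ M →
      (∀ n, M ≤ n → (cpl (itw f G x L) n : ℝ) ≤ A * n) →
      (∀ i ≤ L, ¬ SmallCycle K M d G (G^[i] x)) →
      (L : ℝ) ≤ 2 * K * (M + ht d x) := by
  obtain ⟨K, hK, h⟩ := enter bd_thm su_thm kp_thm T A
  refine ⟨K, hK, fun d f G hG x M L hM hlow hno => ?_⟩
  have hd1 := one_le_d hG
  have hx0 := abs_nonneg (x : ℝ)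
  have hh := ht_nonneg hG x
  set s : ℝ := |(x : ℝ)| + |(d : ℝ)| with hs
  have hs1 : 1 ≤ s := by rw [hs]; linarith
  have hhs : ht d x = Real.log s := rfl
  rw [hhs] at hh ⊢
  set N : ℕ := M + ⌈Real.log s⌉₊ with hN
  have hN1 : Real.log s ≤ N := by
    rw [hN]; push_cast
    have := Nat.le_ceil (Real.log s)
    have : (0 : ℝ) ≤ M := Nat.cast_nonneg _
    linarith
  have hN2 : (N : ℝ) ≤ M + Real.log s + 1 := by
    rw [hN]; push_cast
    have := Nat.ceil_lt_add_one hh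
    linarith
  have hsN : s ≤ Real.exp N := by
    rw [← Real.exp_log (by linarith : 0 < s)]
    exact Real.exp_le_exp.2 hN1
  have hKr : (1 : ℝ) ≤ K := by exact_mod_cast hK
  have hMr : (1 : ℝ) ≤ M := by exact_mod_cast hM
  have hLe : L ≤ K * N := by
    by_contra hcon
    push Not at hcon
    obtain ⟨i, hi, h1, h2, h3⟩ := h d f G hG x M N hM (by omega) (by linarith) (by linarith)
      (fun m hm1 hm2 => by
        refine le_trans ?_ (hlow m (by omega))
        exact_mod_cast wc_le_cpl f G x hcon.le m)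
    refine hno i (by omega) ⟨⟨_, Function.minimalPeriod_pos_of_mem_periodicPts h1, ?_,
      Function.iterate_minimalPeriod⟩, fun j => ?_⟩
    · rw [add_comm (M : ℝ)]; exact h2
    · rw [add_comm (M : ℝ)]; exact h3 j
  have h1 : (L : ℝ) ≤ K * N := by exact_mod_cast hLe
  calc (L : ℝ) ≤ K * N := h1
    _ ≤ K * (M + Real.log s + 1) := mul_le_mul_of_nonneg_left hN2 (by linarith)
    _ ≤ K * (2 * (M + Real.log s)) := by
        apply mul_le_mul_of_nonneg_left _ (by linarith)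
        linarith
    _ = _ := by ring

/-- **Several pieces.** -/
lemma several [DecidableEq α] {K A : ℝ} (hK : 1 ≤ K) (hG : Mp T d f G) {M : ℕ} (hM : 1 ≤ M)
    (h1p : ∀ (x : ℤ) (L : ℕ), (∀ n, M ≤ n → (cpl (itw f G x L) n : ℝ) ≤ A * n) →
      (∀ i ≤ L, ¬ SmallCycle K M d G (G^[i] x)) → (L : ℝ) ≤ 2 * K * (M + ht d x))
    (W : List (List α)) :
    ∀ (x : ℤ) (N : ℕ), W.flatten = itw f G x N → (∀ u ∈ W, ∀ n, M ≤ n → (cpl u n : ℝ) ≤ A * n) →
      (∀ i ≤ N, ¬ SmallCycle K M d G (G^[i] x)) →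
      M + ht d x + Real.log (2 * T.M) * N ≤
        (1 + Real.log (2 * T.M) * (2 * K)) ^ W.length * (M + ht d x) := by
  have hM2 := M2 T
  have hMr : (1 : ℝ) ≤ M := by exact_mod_cast hM
  set γ : ℝ := Real.log (2 * T.M) with hγ
  have hγ0 : 0 ≤ γ := Real.log_nonneg (by linarith)
  set Γ : ℝ := 1 + γ * (2 * K) with hΓ
  have hΓ1 : 1 ≤ Γ := by
    rw [hΓ]
    have : 0 ≤ γ * (2 * K) := by positivity
    linarith
  induction W with
  | nil =>
    intro x N hW _ _
    have h0 : N = 0 := by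
      have h1 := congrArg List.length hW
      rw [itw_length] at h1
      simpa using h1.symm
    subst h0
    simp
  | cons u W ih =>
    intro x N hW hlow hno
    set L := u.length with hL
    have hlen := congrArg List.length hW
    rw [itw_length, List.flatten_cons, List.length_append, ← hL] at hlen
    set N' := W.flatten.length with hN'
    rw [← hlen, itw_add, List.flatten_cons] at hW
    obtain ⟨h1, h2⟩ := List.append_inj hW (by rw [itw_length])
    have h3 := h1p x L (by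
      intro n
      rw [← h1]
      exact hlow u (by simp) n) (fun i hi => hno i (by omega))
    have h4 := ih (G^[L] x) N' h2 (fun v hv => hlow v (by simp [hv])) (by
      intro i hi hc
      rw [← Function.iterate_add_apply] at hc
      exact hno (i + L) (by omega) hc)
    have h5 := ht_iter_le hG x L
    have hh := ht_nonneg hG x
    have hh' := ht_nonneg hG (G^[L] x)
    rw [List.length_cons, ← hlen]
    push_cast
    rw [← hγ] at h5
    set v : ℝ := M + ht d x + γ * L with hv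
    have h6 : v ≤ Γ * (M + ht d x) := by
      rw [hΓ, hv]
      have := mul_le_mul_of_nonneg_left h3 hγ0
      linarith
    have h7 : M + ht d (G^[L] x) ≤ v := by rw [hv]; linarith
    have hGm : 0 ≤ Γ ^ W.length := by positivity
    have hGm1 : 1 ≤ Γ ^ W.length := one_le_pow₀ hΓ1
    calc M + ht d x + γ * (L + N') = v + γ * N' := by rw [hv]; ring
      _ ≤ v + (Γ ^ W.length - 1) * (M + ht d (G^[L] x)) := by linarith
      _ ≤ v + (Γ ^ W.length - 1) * v := by
          have := mul_le_mul_of_nonneg_left h7 (show 0 ≤ Γ ^ W.length - 1 by linarith)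
          linarith
      _ = Γ ^ W.length * v := by ring
      _ ≤ Γ ^ W.length * (Γ * (M + ht d x)) := mul_le_mul_of_nonneg_left h6 hGm
      _ = Γ ^ (W.length + 1) * (M + ht d x) := by ring

/-- **Few pieces force the trajectory into a small cycle.** -/
theorem pieces [DecidableEq α] [Finite α] (T : Dt α) (A : ℝ) : ∃ B : ℝ, 1 ≤ B ∧
    ∀ (d : ℤ) (f : ℤ → α) (G : ℤ → ℤ), Mp T d f G → ∀ (x : ℤ) (M N : ℕ) (W : List (List α)),
      1 ≤ M → W.flatten = itw f G x N → (∀ u ∈ W, ∀ n, M ≤ n → (cpl u n : ℝ) ≤ A * n) →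
      B ^ (W.length + 1) * (M + Real.log (|(x : ℝ)| + |(d : ℝ)|)) < N →
      ∃ i ≤ N, SmallCycle B M d G (G^[i] x) := by
  obtain ⟨K, hK, h1⟩ := one_piece T A
  have hKr : (1 : ℝ) ≤ K := by exact_mod_cast hK
  have hM2 := M2 T
  set γ : ℝ := Real.log (2 * T.M) with hγ
  have hγ1 : 1 ≤ γ := by
    rw [hγ, Real.le_log_iff_exp_le (by linarith)]
    have := Real.exp_one_lt_d9
    linarith
  set Γ : ℝ := 1 + γ * (2 * K) with hΓ
  have hΓK : (K : ℝ) ≤ Γ := by
    rw [hΓ]
    nlinarith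
  have hΓ1 : 1 ≤ Γ := hKr.trans hΓK
  refine ⟨Γ, hΓ1, fun d f G hG x M N W hM hW hlow hN => ?_⟩
  by_contra hcon
  push Not at hcon
  have h2 := several (K := K) hKr hG hM (fun x L hl hno => h1 d f G hG x M L hM hl hno) W x N hW hlow
    (fun i hi hc => hcon i hi (hc.mono hΓK (one_le_d hG)))
  have hh := ht_nonneg hG x
  have hMr : (1 : ℝ) ≤ M := by exact_mod_cast hM
  rw [← hγ, ← hΓ] at h2
  have h3 : (N : ℝ) ≤ γ * N := by
    have : (0 : ℝ) ≤ N := Nat.cast_nonneg _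
    nlinarith
  have h4 : (N : ℝ) ≤ Γ ^ W.length * (M + ht d x) := by linarith
  have h5 : Γ ^ W.length * (M + ht d x) ≤ Γ ^ (W.length + 1) * (M + ht d x) :=
    mul_le_mul_of_nonneg_right (pow_le_pow_right₀ hΓ1 (by omega)) (by linarith)
  have h6 : ht d x = Real.log (|(x : ℝ)| + |(d : ℝ)|) := rfl
  rw [h6] at h4 h5
  linarith

/-- **Hamming distance.** -/
theorem near [DecidableEq α] [Finite α] (T : Dt α) (A : ℝ) : ∃ B : ℝ, 1 ≤ B ∧
    ∀ (d : ℤ) (f : ℤ → α) (G : ℤ → ℤ), Mp T d f G → ∀ (x : ℤ) (M N : ℕ) (v : List α),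
      1 ≤ M → v.length = N → (∀ n, M ≤ n → (cpl v n : ℝ) ≤ A * n) →
      B ^ (ham (itw f G x N) v + 1) * (M + Real.log (|(x : ℝ)| + |(d : ℝ)|)) < N →
      ∃ i ≤ N, SmallCycle B M d G (G^[i] x) := by
  obtain ⟨B, hB, h⟩ := pieces T (max A 1)
  have hBB : B ≤ B ^ 2 := by nlinarith
  refine ⟨B ^ 2, one_le_pow₀ hB, fun d f G hG x M N v hM hv hlow hN => ?_⟩
  obtain ⟨W, h1, h2, h3⟩ := ham_pieces (A := max A 1) (le_max_right _ _) hM (itw f G x N) v
    (by rw [itw_length, hv]) (fun n hn => (hlow n hn).trans (by gcongr; exact le_max_left _ _))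
  obtain ⟨i, hi, hc⟩ := h d f G hG x M N W hM h1 h3 (by
    refine lt_of_le_of_lt (mul_le_mul_of_nonneg_right ?_ ?_) hN
    · rw [← pow_mul]
      exact pow_le_pow_right₀ hB (by omega)
    · have := ht_nonneg hG x
      unfold ht at this
      positivity)
  exact ⟨i, hi, hc.mono hBB (one_le_d hG)⟩

end Pool.Agent.Y780.Mo
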