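import Mathlib
import Pool.Agent.Y780.Mo.Traj

set_option autoImplicit false

/-!
# Two trajectories which have not met
-/

open Finset

namespace Pool.Agent.Y780.Mo

open Pool.Agent.TH932.Words Pool.Agent.TH932.S2 Pool.Agent.TH932.S2.F

variable {α : Type*}

section ham
variable [DecidableEq α]

lemma ham_append {a b c e : List α} (h : a.length = c.length) :
    ham (a ++ b) (c ++ e) = ham a c + ham b e := by
  unfold ham
  rw [List.zip_append h, List.filter_append, List.length_append]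

lemma ham_self (a : List α) : ham a a = 0 := by
  induction a with
  | nil => rfl
  | cons x a ih =>
    unfold ham at ih ⊢
    simp only [List.zip_cons_cons]
    rw [List.filter_cons_of_neg (by simp)]
    exact ih

lemma eq_of_ham_zero : ∀ {a c : List α}, a.length = c.length → ham a c = 0 → a = c := by
  intro a
  induction a with
  | nil => intro c h _; exact (List.length_eq_zero_iff.1 h.symm).symm
  | cons x a ih =>
    intro c h h0
    match c, h with
    | [], h => simp at h
    | y :: c, h =>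
      have hxy : x = y := by
        by_contra hne
        unfold ham at h0
        have : (x != y) = true := by simpa using hne
        simp [this] at h0
      subst hxy
      congr 1
      apply ih (by simpa using h)
      unfold ham at h0 ⊢
      simp only [List.zip_cons_cons] at h0
      rw [List.filter_cons_of_neg (by simp)] at h0
      exact h0

end ham

variable {T : Dt α} {d : ℤ} {f : ℤ → α} {G : ℤ → ℤ}

/-- If the letters agree for `g` steps, then `p ^ g` divides the difference. -/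
lemma dvd_of_agree (h : Mp T d f G) (g : ℕ) :
    ∀ x y : ℤ, (∀ i < g, f (G^[i] x) = f (G^[i] y)) → (T.p : ℤ) ^ g ∣ x - y := by
  induction g with
  | zero => intro x y _; simp
  | succ g ih =>
    intro x y hxy
    have h0 : f x = f y := by simpa using hxy 0 (by omega)
    have h1 : (T.p : ℤ) ^ g ∣ G x - G y := by
      apply ih
      intro i hi
      have := hxy (i + 1) (by omega)
      simpa [Function.iterate_succ_apply] using this
    have h2 : (T.p : ℤ) ^ (g + 1) ∣ T.p * (G x - G y) := by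
      rw [pow_succ, mul_comm]; exact mul_dvd_mul_left _ h1
    have e : (T.p : ℤ) * (G x - G y) = (T.q : ℤ) ^ T.δ (f x) * (x - y) := by
      have e1 := h.hG x
      have e2 := h.hG y
      rw [← h0] at e2
      linear_combination e1 - e2
    rw [e] at h2
    exact (T.cop (g + 1) (T.δ (f x))).dvd_of_dvd_mul_left h2

lemma agree_of_itw_eq {x y : ℤ} {n : ℕ} (h : itw f G x n = itw f G y n) :
    ∀ i < n, f (G^[i] x) = f (G^[i] y) := by
  intro i hi
  unfold itw at h
  exact List.map_inj_left.1 h i (List.mem_range.2 hi)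

lemma itw_eq_of_agree {x y : ℤ} {n : ℕ} (h : ∀ i < n, f (G^[i] x) = f (G^[i] y)) :
    itw f G x n = itw f G y n := by
  unfold itw
  exact List.map_inj_left.2 fun i hi => h i (List.mem_range.1 hi)

/-- the height of a pair -/
noncomputable def h2 (d x y : ℤ) : ℝ := Real.log (max |(x : ℝ)| |(y : ℝ)| + |(d : ℝ)|)

lemma h2_nonneg (h : Mp T d f G) (x y : ℤ) : 0 ≤ h2 d x y := by
  unfold h2
  apply Real.log_nonneg
  have : 0 ≤ max |(x : ℝ)| |(y : ℝ)| := le_max_of_le_left (abs_nonneg _)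
  linarith [one_le_d h]

lemma h2_iter_le (h : Mp T d f G) (x y : ℤ) (n : ℕ) :
    h2 d (G^[n] x) (G^[n] y) ≤ h2 d x y + Real.log (2 * T.M) * n := by
  have hM := M2 T
  have h1 := iter_le h x n
  have h1' := iter_le h y n
  have hd1 := one_le_d h
  have e0 : 0 ≤ max |(x : ℝ)| |(y : ℝ)| := le_max_of_le_left (abs_nonneg _)
  have e0' : 0 ≤ max |((G^[n] x : ℤ) : ℝ)| |((G^[n] y : ℤ) : ℝ)| := le_max_of_le_left (abs_nonneg _)
  have e1 : |(x : ℝ)| ≤ max |(x : ℝ)| |(y : ℝ)| := le_max_left _ _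
  have e2 : |(y : ℝ)| ≤ max |(x : ℝ)| |(y : ℝ)| := le_max_right _ _
  have hp : (0 : ℝ) < (2 * T.M) ^ n := by positivity
  have h3 : max |((G^[n] x : ℤ) : ℝ)| |((G^[n] y : ℤ) : ℝ)| + |(d : ℝ)| ≤
      (2 * T.M) ^ n * (max |(x : ℝ)| |(y : ℝ)| + |(d : ℝ)|) := by
    rcases max_choice |((G^[n] x : ℤ) : ℝ)| |((G^[n] y : ℤ) : ℝ)| with h5 | h5 <;> rw [h5]
    · exact h1.trans (mul_le_mul_of_nonneg_left (by linarith) hp.le)
    · exact h1'.trans (mul_le_mul_of_nonneg_left (by linarith) hp.le)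
  unfold h2
  have h4 := Real.log_le_log (by linarith) h3
  rw [Real.log_mul hp.ne' (by linarith), Real.log_pow] at h4
  linarith

/-- agreement of `g` letters is only possible for large numbers -/
lemma run_le (h : Mp T d f G) (g : ℕ) (x y : ℤ) (hxy : x ≠ y)
    (hg : ∀ i < g, f (G^[i] x) = f (G^[i] y)) : (g : ℝ) ≤ 2 * (1 + h2 d x y) := by
  have h1 := dvd_of_agree h g x y hg
  have h3 : x - y ≠ 0 := sub_ne_zero.2 hxy
  have h4 : (T.p : ℤ) ^ g ≤ |x - y| := Int.le_of_dvd (abs_pos.2 h3) ((dvd_abs _ _).2 h1)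
  have h5 : ((T.p : ℝ)) ^ g ≤ |(x : ℝ) - y| := by exact_mod_cast h4
  have hp : (2 : ℝ) ≤ T.p := by exact_mod_cast T.hp
  have h6 : (2 : ℝ) ^ g ≤ (T.p : ℝ) ^ g := pow_le_pow_left₀ (by norm_num) hp _
  have h7 : |(x : ℝ) - y| ≤ |(x : ℝ)| + |(y : ℝ)| := abs_sub _ _
  have h8 : |(x : ℝ)| ≤ max |(x : ℝ)| |(y : ℝ)| := le_max_left _ _
  have h9 : |(y : ℝ)| ≤ max |(x : ℝ)| |(y : ℝ)| := le_max_right _ _
  have hd1 := one_le_d h
  have h10 : (2 : ℝ) ^ g ≤ 2 * (max |(x : ℝ)| |(y : ℝ)| + |(d : ℝ)|) := by linarith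
  have hpos : 0 < max |(x : ℝ)| |(y : ℝ)| + |(d : ℝ)| := by
    have := abs_nonneg (x : ℝ)
    linarith
  have h11 := Real.log_le_log (by positivity) h10
  rw [Real.log_pow, Real.log_mul (by norm_num) hpos.ne'] at h11
  have hl2 : 0.6931471803 < Real.log 2 := Real.log_two_gt_d9
  have hl2' : Real.log 2 < 0.6931471808 := Real.log_two_lt_d9
  have hh : 0 ≤ Real.log (max |(x : ℝ)| |(y : ℝ)| + |(d : ℝ)|) := h2_nonneg h x y
  have hg0 : (0 : ℝ) ≤ g := Nat.cast_nonneg _
  unfold h2
  nlinarith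

/-- **Two trajectories which have not met.** -/
theorem two [DecidableEq α] (h : Mp T d f G) (D : ℕ) :
    ∀ (N : ℕ) (x y : ℤ), ham (itw f G x N) (itw f G y N) = D → G^[N] x ≠ G^[N] y →
      1 + h2 d x y + Real.log (2 * T.M) * N ≤
        (1 + Real.log (2 * T.M) * 3) ^ (D + 1) * (1 + h2 d x y) := by
  have hM2 := M2 T
  set γ : ℝ := Real.log (2 * T.M) with hγ
  have hγ0 : 0 ≤ γ := Real.log_nonneg (by linarith)
  set Γ : ℝ := 1 + γ * 3 with hΓ
  have hΓ1 : 1 ≤ Γ := by
    rw [hΓ]
    have : 0 ≤ γ * 3 := by positivity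
    linarith
  induction D with
  | zero =>
    intro N x y hD hne
    have hxy : x ≠ y := by rintro rfl; exact hne rfl
    have h1 := run_le h N x y hxy (agree_of_itw_eq (eq_of_ham_zero (by simp [itw_length]) hD))
    have hh := h2_nonneg h x y
    rw [zero_add, pow_one, hΓ]
    have := mul_le_mul_of_nonneg_left h1 hγ0
    nlinarith
  | succ D ih =>
    intro N x y hD hne
    have hxy : x ≠ y := by rintro rfl; exact hne rfl
    have hex : ∃ i, i < N ∧ f (G^[i] x) ≠ f (G^[i] y) := by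
      by_contra hcon
      push Not at hcon
      rw [itw_eq_of_agree hcon, ham_self] at hD
      omega
    classical
    obtain ⟨g, ⟨hgn, hgd⟩, hgmin⟩ : ∃ g, (g < N ∧ f (G^[g] x) ≠ f (G^[g] y)) ∧
        ∀ i < g, f (G^[i] x) = f (G^[i] y) := by
      refine ⟨Nat.find hex, Nat.find_spec hex, fun i hi => ?_⟩
      have h1 := Nat.find_min hex hi
      have h2 := (Nat.find_spec hex).1
      by_contra hcon
      exact h1 ⟨by omega, hcon⟩
    have hrun := run_le h g x y hxy hgmin
    obtain ⟨N', hN'⟩ : ∃ N', N = (g + 1) + N' := ⟨N - (g + 1), by omega⟩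
    have hd1 : ham (itw f G x (g + 1)) (itw f G y (g + 1)) = 1 := by
      rw [itw_add, itw_add, ham_append (by simp [itw_length]), itw_eq_of_agree hgmin, ham_self]
      have : (f (G^[g] x) != f (G^[g] y)) = true := by simpa using hgd
      unfold ham itw
      simp [this]
    have hd2 : ham (itw f G (G^[g + 1] x) N') (itw f G (G^[g + 1] y) N') = D := by
      rw [hN', itw_add, itw_add _ _ y, ham_append (by simp [itw_length]), hd1] at hD
      omega
    have hne' : G^[N'] (G^[g + 1] x) ≠ G^[N'] (G^[g + 1] y) := by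
      rw [← Function.iterate_add_apply, ← Function.iterate_add_apply, add_comm N', ← hN']
      exact hne
    have h1 := ih N' _ _ hd2 hne'
    have h5 := h2_iter_le h x y (g + 1)
    have hh := h2_nonneg h x y
    have hh' := h2_nonneg h (G^[g + 1] x) (G^[g + 1] y)
    rw [← hγ] at h5
    push_cast at h5
    rw [hN']
    push_cast
    set v : ℝ := 1 + h2 d x y + γ * (g + 1) with hv
    have h6 : v ≤ Γ * (1 + h2 d x y) := by
      rw [hΓ, hv]
      have := mul_le_mul_of_nonneg_left (show (g : ℝ) + 1 ≤ 3 * (1 + h2 d x y) by linarith) hγ0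
      linarith
    have h7 : 1 + h2 d (G^[g + 1] x) (G^[g + 1] y) ≤ v := by rw [hv]; linarith
    have hGm : 0 ≤ Γ ^ (D + 1) := by positivity
    have hGm1 : 1 ≤ Γ ^ (D + 1) := one_le_pow₀ hΓ1
    calc 1 + h2 d x y + γ * (g + 1 + N') = v + γ * N' := by rw [hv]; ring
      _ ≤ v + (Γ ^ (D + 1) - 1) * (1 + h2 d (G^[g + 1] x) (G^[g + 1] y)) := by linarith
      _ ≤ v + (Γ ^ (D + 1) - 1) * v := by
          have := mul_le_mul_of_nonneg_left h7 (show 0 ≤ Γ ^ (D + 1) - 1 by linarith)
          linarith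
      _ = Γ ^ (D + 1) * v := by ring
      _ ≤ Γ ^ (D + 1) * (Γ * (1 + h2 d x y)) := mul_le_mul_of_nonneg_left h6 hGm
      _ = Γ ^ (D + 1 + 1) * (1 + h2 d x y) := by ring

/-- **Two trajectories which have not met**, simple form. -/
theorem two' [DecidableEq α] (T : Dt α) : ∃ B : ℝ, 1 ≤ B ∧
    ∀ (d : ℤ) (f : ℤ → α) (G : ℤ → ℤ), Mp T d f G → ∀ (N : ℕ) (x y : ℤ), G^[N] x ≠ G^[N] y →
      (N : ℝ) ≤ B ^ (ham (itw f G x N) (itw f G y N) + 1) *
        (1 + Real.log (max |(x : ℝ)| |(y : ℝ)| + |(d : ℝ)|)) := by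
  have hM2 := M2 T
  have hγ1 : 1 ≤ Real.log (2 * T.M) := by
    rw [Real.le_log_iff_exp_le (by linarith)]
    have := Real.exp_one_lt_d9
    linarith
  refine ⟨1 + Real.log (2 * T.M) * 3, by linarith, fun d f G hG N x y hne => ?_⟩
  have h1 := two hG _ N x y rfl hne
  have hh := h2_nonneg hG x y
  have h3 : (N : ℝ) ≤ Real.log (2 * T.M) * N := by
    have : (0 : ℝ) ≤ N := Nat.cast_nonneg _
    nlinarith
  have h6 : h2 d x y = Real.log (max |(x : ℝ)| |(y : ℝ)| + |(d : ℝ)|) := rfl
  rw [← h6]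
  linarith

end Pool.Agent.Y780.Mo
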