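import Mathlib
import Pool.Agent.Y780.Mo.Two

set_option autoImplicit false

/-!
# Sequences of integers driven by a word: few simple pieces
-/

open Finset

namespace Pool.Agent.Y780.Mo

open Pool.Agent.TH932.Words Pool.Agent.TH932.S2 Pool.Agent.TH932.S2.F

variable {κ α : Type*}

/-- the letters of `c` at the times `a, …, a + n - 1` -/
def seg (c : ℕ → κ) (a n : ℕ) : List κ := (List.range n).map fun i => c (a + i)

lemma seg_length (c : ℕ → κ) (a n : ℕ) : (seg c a n).length = n := by
  unfold seg; simp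

lemma seg_add (c : ℕ → κ) (a m n : ℕ) : seg c a (m + n) = seg c a m ++ seg c (a + m) n := by
  unfold seg
  rw [List.range_add, List.map_append, List.map_map]
  congr 1
  apply List.map_congr_left
  intro i _
  simp only [Function.comp]
  rw [add_assoc]

lemma seg_factor (c : ℕ → κ) (a : ℕ) {L i n : ℕ} (h : i + n ≤ L) :
    ((seg c a L).drop i).take n = seg c (a + i) n := by
  obtain ⟨b, hb⟩ : ∃ b, L = i + (n + b) := ⟨L - i - n, by omega⟩
  rw [hb, seg_add, List.drop_left' (seg_length _ _ _), seg_add,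
    List.take_left' (seg_length _ _ _)]

/-- **Several pieces**, abstract form. -/
lemma seg_pieces {c : ℕ → κ} {h : ℕ → ℝ} {γ b M : ℝ} (a0 : ℕ) (hγ : 0 ≤ γ) (hb : 0 ≤ b)
    (h0 : ∀ a, 0 ≤ h a) (hg : ∀ a L : ℕ, h (a + L) ≤ h a + γ * L) (P : List κ → Prop)
    (hP : ∀ a L : ℕ, a0 ≤ a → P (seg c a L) → (L : ℝ) ≤ b * (M + h a)) (W : List (List κ)) :
    ∀ a N : ℕ, a0 ≤ a → W.flatten = seg c a N → (∀ u ∈ W, P u) →
      M + h a + γ * N ≤ (1 + γ * b) ^ W.length * (M + h a) := by
  have hΓ1 : 1 ≤ 1 + γ * b := by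
    have : 0 ≤ γ * b := by positivity
    linarith
  induction W with
  | nil =>
    intro a N _ hW _
    have h0 : N = 0 := by
      have h1 := congrArg List.length hW
      rw [seg_length] at h1
      simpa using h1.symm
    subst h0
    simp
  | cons u W ih =>
    intro a N ha hW hlow
    set L := u.length with hL
    have hlen := congrArg List.length hW
    rw [seg_length, List.flatten_cons, List.length_append, ← hL] at hlen
    set N' := W.flatten.length with hN'
    rw [← hlen, seg_add, List.flatten_cons] at hW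
    obtain ⟨h1, h2⟩ := List.append_inj hW (by rw [seg_length])
    have h3 := hP a L ha (by
      rw [← h1]
      exact hlow u (by simp))
    have h4 := ih (a + L) N' (by omega) h2 (fun v hv => hlow v (by simp [hv]))
    have h5 := hg a L
    have hh := h0 a
    have hh' := h0 (a + L)
    rw [List.length_cons, ← hlen]
    push_cast
    set v : ℝ := M + h a + γ * L with hv
    have h6 : v ≤ (1 + γ * b) * (M + h a) := by
      rw [hv]
      have := mul_le_mul_of_nonneg_left h3 hγ
      linarith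
    have h7 : M + h (a + L) ≤ v := by rw [hv]; linarith
    have hGm : 0 ≤ (1 + γ * b) ^ W.length := by positivity
    have hGm1 : 1 ≤ (1 + γ * b) ^ W.length := one_le_pow₀ hΓ1
    calc M + h a + γ * (L + N') = v + γ * N' := by rw [hv]; ring
      _ ≤ v + ((1 + γ * b) ^ W.length - 1) * (M + h (a + L)) := by linarith
      _ ≤ v + ((1 + γ * b) ^ W.length - 1) * v := by
          have := mul_le_mul_of_nonneg_left h7 (show 0 ≤ (1 + γ * b) ^ W.length - 1 by linarith)
          linarith
      _ = (1 + γ * b) ^ W.length * v := by ring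
      _ ≤ (1 + γ * b) ^ W.length * ((1 + γ * b) * (M + h a)) := mul_le_mul_of_nonneg_left h6 hGm
      _ = (1 + γ * b) ^ (W.length + 1) * (M + h a) := by ring

/-- the complexity of a word read off from another word by a window of two letters -/
lemma wc_le_seg [DecidableEq κ] [Inhabited κ] (c : ℕ → κ) (φ : κ → κ → α) (a : ℕ) {H L : ℕ}
    (hHL : H + 1 ≤ L) (m : ℕ) :
    wc (fun k => φ (c (a + k)) (c (a + k + 1))) H m ≤ cpl (seg c a L) (m + 1) := by
  classical
  unfold wc cpl
  set Ψ : List κ → (Fin m → α) := fun l k => φ (l.getD k default) (l.getD (k + 1) default) with hΨ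
  set S := (Finset.range ((seg c a L).length + 1 - (m + 1))).image
    fun i => ((seg c a L).drop i).take (m + 1) with hS
  have hsub : ((fun i => fac (fun k => φ (c (a + k)) (c (a + k + 1))) m i) '' {i | i + m ≤ H}) ⊆
      Ψ '' (S : Set (List κ)) := by
    rintro _ ⟨i, hi, rfl⟩
    rw [Set.mem_ofPred_eq] at hi
    refine ⟨seg c (a + i) (m + 1), ?_, ?_⟩
    · rw [Finset.mem_coe, hS, Finset.mem_image]
      refine ⟨i, ?_, seg_factor c a (by omega)⟩
      rw [Finset.mem_range, seg_length]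
      omega
    · funext k
      rw [hΨ]
      simp only [fac]
      have hk := k.isLt
      have e : ∀ t, t < m + 1 → (seg c (a + i) (m + 1)).getD t default = c (a + i + t) := by
        intro t ht
        unfold seg
        rw [List.getD_eq_getElem _ _ (by simpa using ht)]
        simp
      have e1 : a + i + (k : ℕ) = a + (i + k) := by ring
      have e2 : a + i + ((k : ℕ) + 1) = a + (i + k) + 1 := by ring
      rw [e _ (by omega), e _ (by omega), e1, e2]
  refine (Set.ncard_le_ncard hsub (Set.toFinite _)).trans ?_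
  refine (Set.ncard_image_le (Finset.finite_toSet _)).trans ?_
  rw [Set.ncard_coe_finset]

/-- **One piece**, for injective sequences of integers. -/
lemma one_piece_seq [DecidableEq κ] [Inhabited κ] [Finite α] (T : Dt α) (A : ℝ) : ∃ K : ℕ, 1 ≤ K ∧
    ∀ (c : ℕ → κ) (φ : κ → κ → α) (y : ℕ → ℤ) (a0 : ℕ),
      (∀ k, (T.p : ℤ) * y (k + 1) = (T.q : ℤ) ^ T.δ (φ (c k) (c (k + 1))) * y k +
        T.β (φ (c k) (c (k + 1)))) →
      (∀ i j, a0 ≤ i → i < j → y i ≠ y j) → ∀ (M a L : ℕ), 1 ≤ M → a0 ≤ a →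
      (∀ n, M ≤ n → (cpl (seg c a L) n : ℝ) ≤ A * n) →
      (L : ℝ) ≤ 2 * K * (M + Real.log (|(y a : ℝ)| + 1)) := by
  obtain ⟨K, hK, h⟩ := finitary bd_thm T (2 * |A|) 1
  refine ⟨K, hK, fun c φ y a0 hrec hinj M a L hM ha hlow => ?_⟩
  have hy0 := abs_nonneg (y a : ℝ)
  set s : ℝ := |(y a : ℝ)| + 1 with hs
  have hs1 : 1 ≤ s := by rw [hs]; linarith
  have hh : 0 ≤ Real.log s := Real.log_nonneg hs1
  set N : ℕ := M + ⌈Real.log s⌉₊ with hN
  have hN1 : Real.log s ≤ N := by
    rw [hN]; push_cast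
    have := Nat.le_ceil (Real.log s)
    have : (0 : ℝ) ≤ M := Nat.cast_nonneg _
    linarith
  have hN2 : (N : ℝ) ≤ M + Real.log s + 1 := by
    rw [hN]; push_cast
    have := Nat.ceil_lt_add_one hh
    linarith
  have hsN : s ≤ Real.exp N := by
    rw [← Real.exp_log (by linarith : 0 < s)]
    exact Real.exp_le_exp.2 hN1
  have hKr : (1 : ℝ) ≤ K := by exact_mod_cast hK
  have hMr : (1 : ℝ) ≤ M := by exact_mod_cast hM
  have hLe : L ≤ K * N := by
    by_contra hcon
    push Not at hcon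
    obtain ⟨i, j, hij, _, he⟩ := h N (by omega) (fun k => φ (c (a + k)) (c (a + k + 1)))
      (fun k => y (a + k)) 1 isCoprime_one_left (fun k _ => by
        have := hrec (a + k)
        rw [one_mul, ← add_assoc]
        exact this) (by
        simp only [add_zero, one_mul]
        linarith) (by
        rw [one_mul, Int.cast_one, abs_one]
        linarith) (fun m hm1 hm2 => by
        have h1 : (wc (fun k => φ (c (a + k)) (c (a + k + 1))) (K * N) m : ℝ) ≤
            cpl (seg c a L) (m + 1) := by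
          exact_mod_cast wc_le_seg c φ a (by omega) m
        refine h1.trans ((hlow (m + 1) (by omega)).trans ?_)
        have hm : (1 : ℝ) ≤ m := by exact_mod_cast (by omega : 1 ≤ m)
        have hA := le_abs_self A
        have hA0 := abs_nonneg A
        push_cast
        nlinarith)
    exact hinj (a + i) (a + j) (by omega) (by omega) he
  have h1 : (L : ℝ) ≤ K * N := by exact_mod_cast hLe
  calc (L : ℝ) ≤ K * N := h1
    _ ≤ K * (M + Real.log s + 1) := mul_le_mul_of_nonneg_left hN2 (by linarith)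
    _ ≤ K * (2 * (M + Real.log s)) := by
        apply mul_le_mul_of_nonneg_left _ (by linarith)
        linarith
    _ = _ := by ring

/-- growth of the sequence -/
lemma seq_growth (T : Dt α) {w : ℕ → α} {y : ℕ → ℤ}
    (hrec : ∀ k, (T.p : ℤ) * y (k + 1) = (T.q : ℤ) ^ T.δ (w k) * y k + T.β (w k)) (a L : ℕ) :
    Real.log (|(y (a + L) : ℝ)| + 1) ≤ Real.log (|(y a : ℝ)| + 1) + Real.log (2 * T.M) * L := by
  have hM := M2 T
  have hp : (2 : ℝ) ≤ T.p := by exact_mod_cast T.hp
  have step : ∀ k, |(y (k + 1) : ℝ)| + 1 ≤ 2 * T.M * (|(y k : ℝ)| + 1) := by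
    intro k
    have h1 : (T.p : ℝ) * y (k + 1) = (T.q : ℝ) ^ T.δ (w k) * y k + T.β (w k) := by
      exact_mod_cast hrec k
    have h2 : (T.p : ℝ) * |(y (k + 1) : ℝ)| ≤ T.M * |(y k : ℝ)| + T.M := by
      have e : (T.p : ℝ) * |(y (k + 1) : ℝ)| = |(T.p : ℝ) * y (k + 1)| := by
        rw [abs_mul, abs_of_nonneg (by linarith : (0 : ℝ) ≤ T.p)]
      rw [e, h1]
      refine (abs_add_le _ _).trans ?_
      rw [abs_mul, abs_of_nonneg (by positivity : (0 : ℝ) ≤ (T.q : ℝ) ^ T.δ (w k))]
      have e1 : (T.q : ℝ) ^ T.δ (w k) ≤ T.M := by exact_mod_cast T.hqM (w k)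
      have e2 : |((T.β (w k) : ℤ) : ℝ)| ≤ T.M := by exact_mod_cast T.hβM (w k)
      gcongr
    have hx0 := abs_nonneg (y k : ℝ)
    have hG0 := abs_nonneg (y (k + 1) : ℝ)
    nlinarith
  induction L with
  | zero => simp
  | succ L ih =>
    have h1 := step (a + L)
    have hpos : 0 < |(y (a + L) : ℝ)| + 1 := by positivity
    have hpos' : 0 < |(y (a + L + 1) : ℝ)| + 1 := by positivity
    have h2 := Real.log_le_log hpos' h1
    rw [Real.log_mul (by positivity) hpos.ne'] at h2
    rw [← add_assoc]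
    push_cast
    linarith

/-- **Few simple pieces** for injective sequences of integers. -/
theorem seq_bound [DecidableEq κ] [Inhabited κ] [Finite α] (T : Dt α) (A : ℝ) : ∃ B : ℝ, 1 ≤ B ∧
    ∀ (c : ℕ → κ) (φ : κ → κ → α) (y : ℕ → ℤ) (a0 : ℕ),
      (∀ k, (T.p : ℤ) * y (k + 1) = (T.q : ℤ) ^ T.δ (φ (c k) (c (k + 1))) * y k +
        T.β (φ (c k) (c (k + 1)))) →
      (∀ i j, a0 ≤ i → i < j → y i ≠ y j) → ∀ (M a N : ℕ) (W : List (List κ)), 1 ≤ M → a0 ≤ a →
      W.flatten = seg c a N → (∀ u ∈ W, ∀ n, M ≤ n → (cpl u n : ℝ) ≤ A * n) →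
      (N : ℝ) ≤ B ^ W.length * (M + Real.log (|(y a : ℝ)| + 1)) := by
  obtain ⟨K, hK, h1⟩ := one_piece_seq (κ := κ) T A
  have hKr : (1 : ℝ) ≤ K := by exact_mod_cast hK
  have hM2 := M2 T
  set γ : ℝ := Real.log (2 * T.M) with hγ
  have hγ1 : 1 ≤ γ := by
    rw [hγ, Real.le_log_iff_exp_le (by linarith)]
    have := Real.exp_one_lt_d9
    linarith
  have hΓ1 : 1 ≤ 1 + γ * (2 * K) := by
    have : 0 ≤ γ * (2 * K) := by positivity
    linarith
  refine ⟨1 + γ * (2 * K), hΓ1, fun c φ y a0 hrec hinj M a N W hM ha hW hlow => ?_⟩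
  have hMr : (1 : ℝ) ≤ M := by exact_mod_cast hM
  have h0 : ∀ a : ℕ, 0 ≤ Real.log (|(y a : ℝ)| + 1) := by
    intro a
    apply Real.log_nonneg
    have := abs_nonneg (y a : ℝ)
    linarith
  have h2 := seg_pieces (c := c) (h := fun a => Real.log (|(y a : ℝ)| + 1)) (γ := γ) (b := 2 * K)
    (M := M) a0 (by linarith) (by positivity) h0 (seq_growth T hrec)
    (fun u => ∀ n, M ≤ n → (cpl u n : ℝ) ≤ A * n)
    (fun a L ha hl => h1 c φ y a0 hrec hinj M a L hM ha hl) W a N ha hW hlow
  have h3 : (N : ℝ) ≤ γ * N := by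
    have : (0 : ℝ) ≤ N := Nat.cast_nonneg _
    nlinarith
  have h4 := h0 a
  linarith

end Pool.Agent.Y780.Mo
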